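import Pool.Agent.Q167.Grid.Upper
import Pool.Agent.Q167.Grid.Lower

/-!
# Nested grid-equidistributed sequences: `K*` is finite

The supremum `K*` of those `K` for which a `K`-good sequence exists satisfies `24 ≤ K* ≤ 115`. In
particular `K*` is finite and there is no good infinite sequence.
-/

set_option autoImplicit false

namespace Pool.Agent.Results.MP_924435_co.FiniteKstar

open Q167.Grid

/-- `24 ≤ K* ≤ 115`; in particular `K*` is finite. There is no good infinite sequence. -/
theorem result :
    24 ≤ Kstar ∧ Kstar ≤ 115 ∧ ¬ ∃ x : ℕ → ℝ × ℝ, IsGoodInfinite x := by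
  refine ⟨?_, ?_, ?_⟩
  · apply le_sSup
    exact ⟨24, by norm_num, by norm_num, exists_isGood⟩
  · apply sSup_le
    rintro N ⟨K, hK1, rfl, x, hx⟩
    have h : K ≤ 115 := by
      by_contra hcon
      push Not at hcon
      exact not_isGood (K := K) hcon x hx
    exact_mod_cast h
  · rintro ⟨x, hx⟩
    exact not_isGoodInfinite x hx

end Pool.Agent.Results.MP_924435_co.FiniteKstar
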